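import Pool.Agent.Helper54.SAW2.Stmts
import Pool.Agent.Helper54.SAW.Class

set_option autoImplicit false

namespace Pool.Agent.Helper48.SAW2

open Finset Pool.Agent.Helper54.SAW Pool.Agent.Helper54.SAW2

/-- block 12 -/
theorem final (hcover : CoverS) (hnear : NearS) : FinalS := by
  classical
  obtain ⟨K, hK0, hK⟩ := hcover
  refine ⟨1 / (4000 * (K + 1)), by positivity, ?_⟩
  intro n hn
  set C : ℝ := ((SAWs n).card : ℝ) with hC
  have hC0 : 0 ≤ C := by positivity
  set S : ℝ := ∑ l ∈ SAWs n, ((X l : ℝ) ^ 2 + (Y l : ℝ) ^ 2) with hS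
  have hS0 : 0 ≤ S := sum_nonneg (fun l _ => by positivity)
  set L : ℝ := (Real.log n) ^ 3 with hL
  have hn2 : (2 : ℝ) ≤ n := by exact_mod_cast hn
  have hlog : (0.6931471803 : ℝ) < Real.log n :=
    lt_of_lt_of_le Real.log_two_gt_d9 (Real.log_le_log (by norm_num) hn2)
  have hL1 : (0.3 : ℝ) ≤ L := by
    have h1 : (0.69 : ℝ) ^ 3 ≤ (Real.log n) ^ 3 :=
      pow_le_pow_left₀ (by norm_num) (by linarith) 3
    have h2 : (0.3 : ℝ) ≤ (0.69 : ℝ) ^ 3 := by norm_num
    exact h2.trans h1
  have hLpos : 0 < L := by linarith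
  set M : ℕ := (Nat.sqrt n + 1) / 2 with hM
  have hsq : 1 ≤ Nat.sqrt n := by
    rw [Nat.le_sqrt]; omega
  have hM1 : 1 ≤ M := by omega
  have hM2 : (2 * M - 1) ^ 2 ≤ n := by
    have h1 : 2 * M - 1 ≤ Nat.sqrt n := by omega
    calc (2 * M - 1) ^ 2 ≤ (Nat.sqrt n) ^ 2 := Nat.pow_le_pow_left h1 2
      _ ≤ n := Nat.sqrt_le' n
  have hM3 : (n : ℝ) ≤ 9 * (M : ℝ) ^ 2 := by
    have h1 : n < (Nat.sqrt n + 1) ^ 2 := Nat.lt_succ_sqrt' n
    have h2 : Nat.sqrt n + 1 ≤ 3 * M := by omega
    have h3 : n ≤ 9 * M ^ 2 := by nlinarith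
    exact_mod_cast h3
  have hMR : (1 : ℝ) ≤ M := by exact_mod_cast hM1
  set r : ℕ := M / 4 with hr
  have hrM : 2 * r + 1 ≤ M := by omega
  have hr4 : (M : ℝ) ≤ 4 * ((r : ℝ) + 1) := by
    have : M ≤ 4 * (r + 1) := by omega
    exact_mod_cast this
  -- the sets
  have hbox := box n M hM1 hM2
  set A := (SAWs n).filter (fun l => ∃ t, t ≤ n ∧ (M : ℤ) ≤ X (l.take t)) with hA
  set B := (SAWs n).filter (fun l => (r : ℤ) < |X l|) with hB
  have hsub : A ⊆ Near n M r ∪ B := by
    intro l hl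
    rw [mem_filter] at hl
    rw [mem_union]
    by_cases h : |X l| ≤ (r : ℤ)
    · left
      unfold Near
      rw [mem_filter]
      exact ⟨hl.1, hl.2, h⟩
    · right
      rw [mem_filter]
      exact ⟨hl.1, not_le.1 h⟩
  have hcount : C ≤ 4 * (((Near n M r).card : ℝ) + (B.card : ℝ)) := by
    have h1 : (SAWs n).card ≤ 4 * ((Near n M r).card + B.card) := by
      calc (SAWs n).card ≤ 4 * A.card := by convert hbox
        _ ≤ 4 * ((Near n M r).card + B.card) := by
          apply Nat.mul_le_mul_left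
          exact (card_le_card hsub).trans (card_union_le _ _)
    rw [hC]
    exact_mod_cast h1
  have hgoal : n * C ≤ 4000 * (K + 1) * L * S := by
    by_cases hcase : C / 8 ≤ (B.card : ℝ)
    · -- many walks have |X| > r
      have h1 : ∑ l ∈ B, ((r : ℝ) + 1) ^ 2 ≤ S := by
        calc ∑ l ∈ B, ((r : ℝ) + 1) ^ 2 ≤ ∑ l ∈ B, ((X l : ℝ) ^ 2 + (Y l : ℝ) ^ 2) := by
              apply sum_le_sum
              intro l hl
              rw [mem_filter] at hl
              have h2 : (r : ℤ) + 1 ≤ |X l| := hl.2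
              have h3 : (r : ℝ) + 1 ≤ |(X l : ℝ)| := by exact_mod_cast h2
              have h5 : ((r : ℝ) + 1) ^ 2 ≤ |(X l : ℝ)| ^ 2 := by
                apply pow_le_pow_left₀ (by positivity) h3
              rw [sq_abs] at h5
              have : 0 ≤ (Y l : ℝ) ^ 2 := by positivity
              linarith
          _ ≤ S := by
              apply sum_le_sum_of_subset_of_nonneg (filter_subset _ _)
              intro l _ _
              positivity
      rw [sum_const, nsmul_eq_mul] at h1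
      have h2 : C / 8 * ((r : ℝ) + 1) ^ 2 ≤ S :=
        le_trans (mul_le_mul_of_nonneg_right hcase (by positivity)) h1
      have h3 : (M : ℝ) ^ 2 ≤ 16 * ((r : ℝ) + 1) ^ 2 := by nlinarith
      have h4 : (n : ℝ) ≤ 144 * ((r : ℝ) + 1) ^ 2 := by linarith
      have h5 : n * C ≤ 1152 * S := by
        calc n * C ≤ 144 * ((r : ℝ) + 1) ^ 2 * C := mul_le_mul_of_nonneg_right h4 hC0
          _ = 1152 * (C / 8 * ((r : ℝ) + 1) ^ 2) := by ring
          _ ≤ 1152 * S := by linarith
      have h6 : (1152 : ℝ) ≤ 4000 * (K + 1) * L := by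
        have : (0.3 : ℝ) ≤ (K + 1) * L := by nlinarith
        linarith
      calc n * C ≤ 1152 * S := h5
        _ ≤ 4000 * (K + 1) * L * S := mul_le_mul_of_nonneg_right h6 hS0
    · rw [not_le] at hcase
      have h1 : C / 8 ≤ ((Near n M r).card : ℝ) := by linarith
      have h2 : ((Near n M r).card : ℝ) ≤ 2 * ((NearP n M r).card : ℝ) := by
        exact_mod_cast hnear n M r hrM
      have h2' := hK n M r hn hrM
      have h3 : ((Far n M).card : ℝ) * (M : ℝ) ^ 2 ≤ S := by
        have h4 : ∑ l ∈ Far n M, (M : ℝ) ^ 2 ≤ S := by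
          calc ∑ l ∈ Far n M, (M : ℝ) ^ 2
              ≤ ∑ l ∈ Far n M, ((X l : ℝ) ^ 2 + (Y l : ℝ) ^ 2) := by
                apply sum_le_sum
                intro l hl
                unfold Far at hl
                rw [mem_filter] at hl
                have h5 : (M : ℤ) ≤ X l := hl.2
                have h6 : (M : ℝ) ≤ (X l : ℝ) := by exact_mod_cast h5
                have h7 : (M : ℝ) ^ 2 ≤ (X l : ℝ) ^ 2 := pow_le_pow_left₀ (by positivity) h6 2
                have : 0 ≤ (Y l : ℝ) ^ 2 := by positivity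
                linarith
            _ ≤ S := by
                apply sum_le_sum_of_subset_of_nonneg
                · unfold Far; exact filter_subset _ _
                · intro l _ _
                  positivity
        rwa [sum_const, nsmul_eq_mul] at h4
      have h4 : C / 8 ≤ 2 * (K * L * ((Far n M).card : ℝ)) := by linarith
      have h5 : C * (M : ℝ) ^ 2 ≤ 16 * (K * L) * S := by
        calc C * (M : ℝ) ^ 2 = 8 * (C / 8 * (M : ℝ) ^ 2) := by ring
          _ ≤ 8 * (2 * (K * L * ((Far n M).card : ℝ)) * (M : ℝ) ^ 2) := by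
              have := mul_le_mul_of_nonneg_right h4 (by positivity : (0 : ℝ) ≤ (M : ℝ) ^ 2)
              linarith
          _ = 16 * (K * L) * (((Far n M).card : ℝ) * (M : ℝ) ^ 2) := by ring
          _ ≤ 16 * (K * L) * S := mul_le_mul_of_nonneg_left h3 (by positivity)
      have h6 : n * C ≤ 144 * (K * L) * S := by
        calc n * C ≤ 9 * (M : ℝ) ^ 2 * C := mul_le_mul_of_nonneg_right hM3 hC0
          _ = 9 * (C * (M : ℝ) ^ 2) := by ring
          _ ≤ 9 * (16 * (K * L) * S) := by linarith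
          _ = 144 * (K * L) * S := by ring
      have h7 : 144 * (K * L) ≤ 4000 * (K + 1) * L := by nlinarith [mul_pos hK0 hLpos]
      calc n * C ≤ 144 * (K * L) * S := h6
        _ ≤ 4000 * (K + 1) * L * S := mul_le_mul_of_nonneg_right h7 hS0
  have e : 1 / (4000 * (K + 1)) * ((n : ℝ) / L) * C = n * C / (4000 * (K + 1) * L) := by
    field_simp
  rw [e, div_le_iff₀ (by positivity)]
  calc n * C ≤ 4000 * (K + 1) * L * S := hgoal
    _ = S * (4000 * (K + 1) * L) := by ring

end Pool.Agent.Helper48.SAW2
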